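import Pool.Agent.U400.MM.Main

/-!
# The Mumford-Tate conjecture for `A^n × Z^a` from ONE reduction of `A` in 100% of all isogeny classes

Let `A` be an abelian variety over a number field `L` (or a finitely generated subfield of `ℂ`) and `Z` a smooth
projective variety over `L` with good reduction at ONE place with residue field of `q` elements; `γ` is the Frobenius
element there. The Frobenius polynomial of `A` at this place is the product of the Weil `q`-polynomials `f i` of degrees
`2 g i`. `V = V_ℓ(A)` is the rational Tate module, `W = H_1(A, ℚ)`, `T` is the tangent space of `A(ℂ)` at the origin,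
`per : W → T` and `comp : W → V` are the canonical maps. `N`, `N₀` and `TN` are the dual spaces of the cohomology of
`Z` with coefficients in `ℚ_ℓ`, `ℚ`, `ℝ` (in any set of degrees), `h` is the action of the nonzero complex numbers on
`TN` given by the Hodge decomposition: `h(z)` is the multiplication by `z ^ p \bar z ^ q` on the dual of `H^{p,q}`, as it
is the multiplication by `z` on `T`, the dual of `H^{1,0}(A)`.
By the Kunneth formula the cohomology of `A^n × Z^a` consists of spaces of multilinear forms in variables from `V` and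
variables from `N`. A form `φ` is a Tate form of weight `c` if `φ (g x, g y) = χ(g)^c φ (x, y)` for all `g` in a subgroup
of finite index, a rational form `ψ` is a Hodge form of weight `c` if `ψ (z x, h(z) y) = |z|^(2 c) ψ (x, y)`.

Theorem. Let all `g i > r` and let `E` be a number field. For 100 percent of the families `f` of Weil `q`-polynomials of
degrees `2 g i` (with `O (q ^ (-1 / 6) log q)` exceptions, also among the ordinary ones only; they correspond to the
isogeny classes of abelian varieties over the field with `q` elements) the following holds for all such `A`, without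
any assumption on the endomorphisms of `A` or on other places:

(1) all Tate classes in the tensor powers of `H^1(A)` are combinations of Hodge classes, and even of products of Hodge
classes of degree two: the Mumford-Tate conjecture holds for `A` and all its powers (Hodge classes are Tate classes by
Deligne);

(2) for all `Z` such that the Frobenius element at this place has at most `2 r + 1` different eigenvalues on `N` (all
conjugates of the eigenvalues counted), or eigenvalues of rank at most `r` modulo the numbers with a power in `E`: if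
all Tate forms on `N^a`, for all `a`, are combinations of Hodge forms (the conjecture for the powers of `Z`), then all
Tate forms on `V^n × N^a` are combinations of Hodge forms, and even of products of Hodge forms of degree two on `W`
with Hodge forms on `N₀`: every Tate class on `A^n × Z^a` is a combination of Hodge classes, for all `n` and `a`.

The same holds for almost all points in all boxes of all lattices of coefficient vectors (`InAllLattices`).

The starting hand-ins for this problem treat single Frobenius polynomials of a special kind (CM fields of 2-power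
degree with independent discriminants), without `Z`. The library theorem `Pool.Agent.N166.CZ.core` gives Tate forms
with values in a representation with Frobenius eigenvalues of small rank. New here: the Frobenius eigenvalues on the
spaces of forms on `N^a` for all `a` (`U400/MM/Forms`), the factorization (`U400/HM/Form`), the comparison with Hodge
forms in the presence of `Z` (`U400/MM/Mix`) and the combination with the counts.
-/

set_option autoImplicit false

namespace Pool.Agent.Results.MP_6c781a_ag.GenericReductionMumfordTate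

open Polynomial

/-- The polynomials `f` of degree `2 g` with integral coefficients, leading coefficient one and constant term
`q ^ g`, all of whose complex roots have absolute value `√q`. -/
def weilPolys (q g : ℕ) : Set ℤ[X] :=
  {f | f.Monic ∧ f.natDegree = 2 * g ∧ f.coeff 0 = (q : ℤ) ^ g ∧
    ∀ z : ℂ, aeval z f = 0 → ‖z‖ ^ 2 = q}

/-- The Weil polynomials whose middle coefficient is prime to `q` (those of ordinary abelian varieties). -/
def ordinaryWeilPolys (q g : ℕ) : Set ℤ[X] :=
  {f ∈ weilPolys q g | IsCoprime (f.coeff g) (q : ℤ)}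

/-- Multilinear forms in `n` variables in `W` and `a` variables in `N`, as forms in the first variables with values
in the forms in the other variables. -/
abbrev Mixed (R W N : Type) [CommSemiring R] [AddCommMonoid W] [Module R W] [AddCommMonoid N] [Module R N]
    (n a : ℕ) : Type :=
  MultilinearMap R (fun _ : Fin n => W) (MultilinearMap R (fun _ : Fin a => N) R)

section Hodge

variable {W T N₀ TN : Type} [AddCommGroup W] [Module ℚ W] [AddCommGroup T] [Module ℂ T]
  [AddCommGroup N₀] [Module ℚ N₀] [AddCommGroup TN] [Module ℝ TN]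

/-- The bilinear form `B` on `W = H_1(A, ℚ)` is a Hodge class of degree two: it extends to a real bilinear form on the
tangent space which is invariant under the complex numbers of absolute value `1`. -/
def IsHodgeBilinear (per : W →+ T) (B : W →ₗ[ℚ] W →ₗ[ℚ] ℚ) : Prop :=
  ∃ E : T →ₗ[ℝ] T →ₗ[ℝ] ℝ, (∀ x y, E (per x) (per y) = B x y) ∧
    ∀ z : ℂ, ‖z‖ = 1 → ∀ u v, E (z • u) (z • v) = E u v

/-- A Hodge form of weight `c` in `a` variables in `N₀`: it extends to a real form `Ψ` on `TN` with
`Ψ (h(z) y) = |z| ^ (2 c) Ψ (y)`. -/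
def IsHodgeForm (perN : N₀ →+ TN) (h : ℂ → Module.End ℝ TN) (c : ℤ) {a : ℕ}
    (ψ : MultilinearMap ℚ (fun _ : Fin a => N₀) ℚ) : Prop :=
  ∃ Ψ : MultilinearMap ℝ (fun _ : Fin a => TN) ℝ, (∀ y : Fin a → N₀, Ψ (fun i => perN (y i)) = ψ y) ∧
    ∀ z : ℂ, z ≠ 0 → ∀ y : Fin a → TN, Ψ (fun i => h z (y i)) = (‖z‖ ^ 2) ^ c * Ψ y

/-- A Hodge form of weight `c` in `n` variables in `W = H_1(A, ℚ)` and `a` variables in `N₀`: it extends to a real form
`Ψ` on `T` and `TN` with `Ψ (z x, h(z) y) = |z| ^ (2 c) Ψ (x, y)`. -/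
def IsMixedHodgeForm (per : W →+ T) (perN : N₀ →+ TN) (h : ℂ → Module.End ℝ TN) (c : ℤ) {n a : ℕ}
    (ψ : Mixed ℚ W N₀ n a) : Prop :=
  ∃ Ψ : Mixed ℝ T TN n a, (∀ x y, Ψ (fun l => per (x l)) (fun i => perN (y i)) = ψ x y) ∧
    ∀ z : ℂ, z ≠ 0 → ∀ x y, Ψ (fun l => z • x l) (fun i => h z (y i)) = (‖z‖ ^ 2) ^ c * Ψ x y

/-- `ψ` is the product of `m` Hodge classes of degree two on `A`, `n = 2 m`, the variables being distributed in some
way, and a Hodge form of weight `c - m` on `N₀`. -/
def IsProductForm (per : W →+ T) (perN : N₀ →+ TN) (h : ℂ → Module.End ℝ TN) (c : ℤ) {n a : ℕ}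
    (ψ : Mixed ℚ W N₀ n a) : Prop :=
  ∃ (m : ℕ) (e : Fin m × Fin 2 ≃ Fin n) (B : Fin m → W →ₗ[ℚ] W →ₗ[ℚ] ℚ)
    (ψ₀ : MultilinearMap ℚ (fun _ : Fin a => N₀) ℚ), (∀ l, IsHodgeBilinear per (B l)) ∧
      IsHodgeForm perN h (c - m) ψ₀ ∧
      ∀ x y, ψ x y = (∏ l, B l (x (e (l, 0))) (x (e (l, 1)))) * ψ₀ y

end Hodge

section Tate

variable {k V N Γ : Type} [Field k] [AddCommGroup V] [Module k V] [AddCommGroup N] [Module k N] [Group Γ]

/-- `ω` has the properties of the Weil pairing of a polarization of `A` on `V = V_ℓ(A)`: it is alternating,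
nondegenerate and `ω (s u, s v) = χ(s) ω (u, v)`, where `χ` is the cyclotomic character. -/
def IsWeilPairing (ρ : Representation k Γ V) (χ : Γ →* k) (ω : V →ₗ[k] V →ₗ[k] k) : Prop :=
  (∀ v, ω v v = 0) ∧ (∀ u, (∀ v, ω v u = 0) → u = 0) ∧ ∀ s u v, ω (ρ s u) (ρ s v) = χ s * ω u v

/-- The representation is semisimple over all finite extensions of the base field (Faltings). -/
def SemisimpleOverExtensions (ρ : Representation k Γ V) : Prop :=
  ∀ Δ : Subgroup Γ, Δ.FiniteIndex → ∀ U : Submodule k V, (∀ s ∈ Δ, ∀ u ∈ U, ρ s u ∈ U) →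
    ∃ U' : Submodule k V, (∀ s ∈ Δ, ∀ u ∈ U', ρ s u ∈ U') ∧ IsCompl U U'

/-- A Tate form of weight `c` in `a` variables in `N`. -/
def IsTateForm (χ : Γ →* k) (σ : Representation k Γ N) (c : ℤ) {a : ℕ}
    (φ : MultilinearMap k (fun _ : Fin a => N) k) : Prop :=
  ∃ Δ : Subgroup Γ, Δ.FiniteIndex ∧ ∀ g ∈ Δ, ∀ y, φ (fun i => σ g (y i)) = χ g ^ c * φ y

/-- A Tate form of weight `c` in `n` variables in `V` and `a` variables in `N`. -/
def IsMixedTateForm (ρ : Representation k Γ V) (χ : Γ →* k) (σ : Representation k Γ N) (c : ℤ) {n a : ℕ}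
    (φ : Mixed k V N n a) : Prop :=
  ∃ Δ : Subgroup Γ, Δ.FiniteIndex ∧ ∀ g ∈ Δ, ∀ x y,
    φ (fun l => ρ g (x l)) (fun i => σ g (y i)) = χ g ^ c * φ x y

/-- `T` is killed by a nonzero rational polynomial with at most `d` different complex roots, all of whose squared
absolute values are integral powers of `q`. -/
def FewEigenvalues [CharZero k] (q d : ℕ) (T : Module.End k N) : Prop :=
  ∃ P : ℚ[X], P ≠ 0 ∧ aeval T (P.map (algebraMap ℚ k)) = 0 ∧ (P.rootSet ℂ).ncard ≤ d ∧
    ∀ z : ℂ, aeval z P = 0 → ∃ w : ℤ, ‖z‖ ^ 2 = (q : ℝ) ^ w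

/-- The eigenvalues of `T` and all their conjugates over `ℚ` lie, up to powers, in a group generated by the nonzero
elements of the number field `E` and `r` numbers. -/
def SmallRank [CharZero k] (E : IntermediateField ℚ ℂ) (r : ℕ) (T : Module.End k N) : Prop :=
  ∃ P : ℚ[X], P ≠ 0 ∧ aeval T (P.map (algebraMap ℚ k)) = 0 ∧
    ∃ u : Fin r → ℂ, (∀ j, u j ≠ 0) ∧ ∀ ρ : ℂ, aeval ρ P = 0 →
      ∃ (N : ℕ) (y : ℂ) (m : Fin r → ℤ), 0 < N ∧ y ∈ E ∧ y ≠ 0 ∧ ρ ^ N = y * ∏ j, u j ^ m j

end Tate

section MT

variable {k V N Γ : Type} [Field k] [CharZero k] [AddCommGroup V] [Module k V] [AddCommGroup N] [Module k N]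
  [Group Γ] {W T N₀ TN : Type} [AddCommGroup W] [Module ℚ W] [AddCommGroup T] [Module ℂ T]
  [AddCommGroup N₀] [Module ℚ N₀] [AddCommGroup TN] [Module ℝ TN]

/-- The theorem of Faltings: every endomorphism of `V = V_ℓ(A)` which commutes with the action of a subgroup of finite
index of the Galois group is a combination of endomorphisms of `A` (rational endomorphisms of `W` which extend to
complex linear endomorphisms of the tangent space). -/
def FaltingsEnd (per : W →+ T) (comp : W →+ V) (ρ : Representation k Γ V) : Prop :=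
  ∀ P : Module.End k V, (∃ Δ : Subgroup Γ, Δ.FiniteIndex ∧ ∀ s ∈ Δ, ∀ v, P (ρ s v) = ρ s (P v)) →
    P ∈ Submodule.span k {P' : Module.End k V | ∃ P₀ : W →ₗ[ℚ] W,
      (∃ P₁ : T →ₗ[ℂ] T, ∀ w, P₁ (per w) = per (P₀ w)) ∧ ∀ w, P' (comp w) = comp (P₀ w)}

/-- The data of `A`: Weil pairing, semisimplicity, a rational form `ω₀` on `W` given by a polarization which is mapped
to the Weil pairing by the comparison map, and the theorem of Faltings. -/
def IsAbelianData (per : W →+ T) (comp : W →+ V) (ρ : Representation k Γ V) (χ : Γ →* k)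
    (ω : V →ₗ[k] V →ₗ[k] k) (ω₀ : W →ₗ[ℚ] W →ₗ[ℚ] ℚ) : Prop :=
  IsWeilPairing ρ χ ω ∧ SemisimpleOverExtensions ρ ∧ IsHodgeBilinear per ω₀ ∧
    (∀ x y, ω (comp x) (comp y) = ((ω₀ x y : ℚ) : k)) ∧ FaltingsEnd per comp ρ

/-- The conjecture for the powers of `A`: for all `m`, every multilinear form `φ` in `2 m` variables on `V` with
`φ (g x) = χ(g)^m φ(x)` for all `g` in a subgroup of finite index is a linear combination of forms which come from
products of `m` Hodge classes of degree two. -/
def MumfordTate (per : W →+ T) (comp : W →+ V) (ρ : Representation k Γ V) (χ : Γ →* k) : Prop :=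
  ∀ (m : ℕ) (φ : MultilinearMap k (fun _ : Fin m × Fin 2 => V) k),
    (∃ Δ : Subgroup Γ, Δ.FiniteIndex ∧ ∀ g ∈ Δ, ∀ x, φ (fun l => ρ g (x l)) = χ g ^ m * φ x) →
    φ ∈ Submodule.span k {φ' : MultilinearMap k (fun _ : Fin m × Fin 2 => V) k |
      ∃ (σ : Equiv.Perm (Fin m × Fin 2)) (B : Fin m → (W →ₗ[ℚ] W →ₗ[ℚ] ℚ)),
        (∀ l, IsHodgeBilinear per (B l)) ∧ ∀ x : Fin m × Fin 2 → W,
          φ' (fun l => comp (x l)) = ((∏ l, B l (x (σ (l, 0))) (x (σ (l, 1))) : ℚ) : k)}

/-- All Tate forms in any number of variables in `N` are combinations of forms which come from Hodge forms of the same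
weight: the inclusion of the Tate classes in the span of the Hodge classes for all powers of `Z`. -/
def TateFormsAreHodge (perN : N₀ →+ TN) (h : ℂ → Module.End ℝ TN) (compN : N₀ →+ N) (χ : Γ →* k)
    (σ : Representation k Γ N) : Prop :=
  ∀ (a : ℕ) (c : ℤ) (φ : MultilinearMap k (fun _ : Fin a => N) k), IsTateForm χ σ c φ →
    φ ∈ Submodule.span k {φ' : MultilinearMap k (fun _ : Fin a => N) k |
      ∃ ψ : MultilinearMap ℚ (fun _ : Fin a => N₀) ℚ, IsHodgeForm perN h c ψ ∧
        ∀ y, φ' (fun i => compN (y i)) = ((ψ y : ℚ) : k)}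

/-- All Tate forms in any numbers of variables in `V` and `N` are combinations of forms which come from Hodge forms of
the same weight that are products of Hodge classes of degree two on `A` and Hodge forms on `N₀`. -/
def MixedTateFormsAreHodge (per : W →+ T) (comp : W →+ V) (ρ : Representation k Γ V) (perN : N₀ →+ TN)
    (h : ℂ → Module.End ℝ TN) (compN : N₀ →+ N) (χ : Γ →* k) (σ : Representation k Γ N) : Prop :=
  ∀ (n a : ℕ) (c : ℤ) (φ : Mixed k V N n a), IsMixedTateForm ρ χ σ c φ →
    φ ∈ Submodule.span k {φ' : Mixed k V N n a | ∃ ψ : Mixed ℚ W N₀ n a,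
      IsMixedHodgeForm per perN h c ψ ∧ IsProductForm per perN h c ψ ∧
        ∀ x y, φ' (fun l => comp (x l)) (fun i => compN (y i)) = ((ψ x y : ℚ) : k)}

end MT

/-- For all abelian varieties `A` such that the characteristic polynomial of ONE Frobenius element `γ` is the product
of the `f i`: (1) the conjecture for the powers of `A`; (2) for all `Z` such that the Frobenius element has at most
`2 r + 1` eigenvalues on `N`, or eigenvalues of rank at most `r` over `E`, the conjecture for the powers of `Z` implies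
the one for all `A^n × Z^a`. -/
def MumfordTateForClass {I : Type} [Fintype I] (E : IntermediateField ℚ ℂ) (q r : ℕ) (f : I → ℤ[X]) : Prop :=
  ∀ (k : Type) [Field k] [CharZero k] (V : Type) [AddCommGroup V] [Module k V]
    [FiniteDimensional k V] (Γ : Type) [Group Γ] (ρ : Representation k Γ V) (χ : Γ →* k)
    (ω : V →ₗ[k] V →ₗ[k] k) (W T : Type) [AddCommGroup W] [Module ℚ W] [AddCommGroup T] [Module ℂ T]
    (per : W →+ T) (comp : W →+ V) (ω₀ : W →ₗ[ℚ] W →ₗ[ℚ] ℚ), IsAbelianData per comp ρ χ ω ω₀ →
    ∀ γ : Γ, χ γ = q → (ρ γ).charpoly = ∏ i, (f i).map (Int.castRingHom k) →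
    MumfordTate per comp ρ χ ∧
    ∀ (N : Type) [AddCommGroup N] [Module k N] [FiniteDimensional k N] (σ : Representation k Γ N),
      (SmallRank E r (σ γ⁻¹) ∨ FewEigenvalues q (2 * r + 1) (σ γ⁻¹)) →
      ∀ (N₀ TN : Type) [AddCommGroup N₀] [Module ℚ N₀] [AddCommGroup TN] [Module ℝ TN]
        (perN : N₀ →+ TN) (h : ℂ → Module.End ℝ TN) (compN : N₀ →+ N),
        TateFormsAreHodge perN h compN χ σ → MixedTateFormsAreHodge per comp ρ perN h compN χ σ

/-- The property `P q f` of families of polynomials holds for 100 percent of the families of Weil `q`-polynomials of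
degrees `2 g i` (or of any subsets `S i` of them which contain the ordinary ones): the exceptions are a proportion
`O (q ^ (-1 / 6) log q)`. -/
def ForAlmostAllClasses {I : Type} [Fintype I] (g : I → ℕ) (P : ℕ → (I → ℤ[X]) → Prop) : Prop :=
  ∃ C : ℝ, ∀ q : ℕ, IsPrimePow q → ∀ S : I → Set ℤ[X],
    (∀ i, ordinaryWeilPolys q (g i) ⊆ S i ∧ S i ⊆ weilPolys q (g i)) →
    (∀ i, (S i).Finite ∧ (S i).Nonempty) ∧
    ({f : I → ℤ[X] | (∀ i, f i ∈ S i) ∧ ¬ P q f}.ncard : ℝ) ≤
      C * (Real.log q * (q : ℝ) ^ (-(1 / 6) : ℝ)) * ∏ i, ((S i).ncard : ℝ)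

theorem key {I : Type} [Fintype I] (E : IntermediateField ℚ ℂ) (q r : ℕ) (f : I → ℤ[X])
    (h : Pool.Agent.U400.MM.Prop3 E q r f) : MumfordTateForClass E q r f := by
  intro k _ _ V _ _ _ Γ _ ρ χ ω W T _ _ _ _ per comp ω₀ hA γ hχ hγ
  obtain ⟨hω, hss, hω₀, hωω, hF⟩ := hA
  have hF' : Pool.Agent.H204R3.GP.FaltingsEnd per comp ρ := hF
  obtain ⟨h1, h2⟩ := h k V Γ ρ χ ω hω.1 hω.2.1 hω.2.2 hss W T per comp ω₀ hω₀ hωω hF' γ hχ hγ
  refine ⟨fun m φ hφ => ?_, fun N _ _ _ σ hσ N₀ TN _ _ _ _ perN h compN hN => ?_⟩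
  · have h3 := h1 m φ hφ
    refine Submodule.span_mono ?_ h3
    rintro φ' ⟨ψ, -, ⟨σ, B, hB, hψ⟩, hc⟩
    refine ⟨σ, B, hB, fun x => ?_⟩
    rw [hc x, hψ x]
  · exact h2 N σ hσ N₀ TN perN h compN hN

/-- For `g i > r` and a number field `E`, the property `MumfordTateForClass E q r f` holds for 100 percent of the
families `f` of Weil `q`-polynomials of degrees `2 g i`, and for almost all points in all large boxes of all lattices
of coefficient vectors. -/
theorem result {I : Type} [Fintype I] [DecidableEq I] (g : I → ℕ) (r : ℕ) (hr : ∀ i, r < g i)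
    (E : IntermediateField ℚ ℂ) [FiniteDimensional ℚ E] :
    ForAlmostAllClasses g (fun q f => MumfordTateForClass E q r f) ∧
      Pool.Agent.N578.LB.InAllLattices g (fun q f => MumfordTateForClass E q r f) := by
  constructor
  · obtain ⟨C, hC⟩ := Pool.Agent.U400.MM.count g r hr E
    refine ⟨C, fun q hq S hS => ⟨(hC q hq S hS).1, ?_⟩⟩
    refine le_trans ?_ (hC q hq S hS).2
    have hfin : {f : I → ℤ[X] | ∀ i, f i ∈ S i}.Finite := by
      have h1 := Set.Finite.pi' (fun i => ((hC q hq S hS).1 i).1)
      exact h1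
    have h2 : {f : I → ℤ[X] | (∀ i, f i ∈ S i) ∧ ¬ MumfordTateForClass E q r f}.ncard ≤
        {f : I → ℤ[X] | (∀ i, f i ∈ S i) ∧ ¬ Pool.Agent.U400.MM.Prop3 E q r f}.ncard :=
      Set.ncard_le_ncard (fun f hf => ⟨hf.1, fun h => hf.2 (key E q r f h)⟩)
        (hfin.subset fun f hf => hf.1)
    exact_mod_cast h2
  · exact Pool.Agent.N578.LB.inAllLattices (Pool.Agent.W484.TB.splitPrimes E)
      (Pool.Agent.W484.TB.dense_splitPrimes E) g (fun i => (Nat.zero_le r).trans_lt (hr i)) _
      (fun q hq x hx => key E q r _ (Pool.Agent.U400.MM.prop3_of_good g E r hr q hq x hx))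

end Pool.Agent.Results.MP_6c781a_ag.GenericReductionMumfordTate
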