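import Pool.Agent.U173.MT.Main

/-!
# Hodge classes and Tate classes on products of varieties with separated slope fields

Let `F ⊂ ℂ` be a number field (or a finitely generated field), `Γ` its Galois group, `W₀` the Betti
cohomology of the varieties over `F̄` (coefficients `ℚ`), `W` the `ℓ`-adic cohomology (coefficients in an
algebraic closure of `ℚ_ℓ`) and `W₁` the Betti cohomology with coefficients `ℂ`. The comparison
isomorphisms give homomorphisms `c : W₀.H A → W.H A` and `d : W₀.H A → W₁.H A` (`Comparison`,
`IsComparison`). Let `G = ℂˣ × ℂˣ` act on `W₁` by the Hodge decomposition, `(a, b)` by `a^p b^q` on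
`H^{p,q}`, and `ψ(a, b) = a b` (`IsHodgeAction`). The Hodge classes of codimension `n` are the classes `x`
in `W₀.H A` such that `d x` has the degree `2 n` and is multiplied by `ψ^n` (`G` has no proper subgroup
of finite index). The Tate classes of codimension `n` are the classes in `W` of degree
`2 n` which an open subgroup of `Γ` multiplies by the `n`-th power of the inverse cyclotomic character
`χ` (`IsTateAct`). The Mumford–Tate conjecture for a variety `A` (for `A = Y^k`, all `k`, this is Q1) says that
the images of the Hodge classes on `A` and the Tate classes on `A` span the same spaces
(`TateIsHodge` and `HodgeIsTate`).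

Let `X_i`, `Y_j`, `Z` be **arbitrary** smooth projective varieties over `F` which form a system
`IsProductSystem` (the system of `MP_640417_ag.ProductAndFactors`): the Tate classes on `X_i` have a
stable complement `T_i` in the cohomology (semisimplicity), there are places `v ∈ P_i` such that no nonzero
subspace of `T_i` stable under an open subgroup is supersingular at all these places, and at these
places the slope field `L_i(v)` of `T_i` meets the slope fields of the `X_j`, `j` behind `i`, of the `Y_j` and of
`Z`, each separately, in totally real fields. Let `B = ∏ Y_j × Z` and `V = ∏ X_i × B`.

**Theorem.**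
1. **All Tate classes on `V` are linear combinations of Hodge classes (`TateIsHodge`) if and only if
   this holds for all `X_i` and for `B`.**
2. If all Hodge classes on `V` are Tate classes (`HodgeIsTate`; this is known if `V` is dominated by
   products of abelian varieties and K3 surfaces, by theorems of Deligne and André), then this
   holds for all `X_i` and for `B`. So in this case the Hodge classes and the Tate classes on `V` span the
   same spaces if and only if this holds for all `X_i` and for `B`.

No case of the Mumford–Tate conjecture or of the Tate conjecture is assumed. The slope fields of the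
powers of a variety are those of the variety, so for all `k` one can take the `k`-th powers of given
varieties: the Mumford–Tate conjecture for `Y = ∏ Y_i` follows from the Mumford–Tate conjecture for
the `Y_i`. For abelian varieties this is known in general (Vasiu, Commelin: if the Mumford–Tate
conjecture holds for two abelian varieties then for the product); the theorem is new for other varieties,
where nothing is known about the Mumford–Tate group and the monodromy group.

Proof. The Tate classes on `X_i × V'` are linear combinations of products of Tate classes on the factors
(`U173/PQ`). Conversely, integration over a factor against a zero-cycle of nonzero degree is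
compatible with the comparison isomorphisms and maps Tate classes on the product to Tate classes on the
factor and Hodge classes to Hodge classes.
-/

set_option autoImplicit false

open CategoryTheory AlgebraicGeometry

universe u

namespace Pool.Agent.Results.MP_6c781a_ag.SlopeFieldsMumfordTate

open Pool.Agent.H914 Pool.Agent.H914.VarClass Pool.Agent.H914.VarClass.Obj
  Pool.Agent.H914.WeilCohomology Pool.Agent.H281R3.HT Pool.Agent.TH125.Gal Pool.Agent.U173.PT
  Pool.Agent.U173.PQ Pool.Agent.U173.MT

/-- **The Mumford–Tate conjecture (in terms of classes) for a product of arbitrary varieties with
separated slope fields is equivalent to the conjecture for the factors.** -/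
theorem result {k : Type u} [Field k] {𝒱 : VarClass k} {ops : CycleOps 𝒱}
    (W₀ W₁ W : WeilCohomology.{u, 0} ops) [IsAlgClosed W.K] (c : Comparison W₀ W)
    (hc : IsComparison c) (d : Comparison W₀ W₁) (hd : IsComparison d) {G : Type} [Group G]
    (ψ : G →* W₁.Kˣ) (η : ∀ A : 𝒱.Obj, Act W₁ G A) (hη : IsHodgeAction ψ η) {Γ : Type} [Group Γ]
    (χ : Γ →* W.Kˣ) {I I' : Type} (P : I → Set (Place Γ))
    (E L : I → Place Γ → IntermediateField ℚ (AlgebraicClosure ℚ)) (X : I → GVar W Γ)
    (Y : I' → GVar W Γ) (Z : GVar W Γ) (l : List I) (l' : List I')
    (h : IsProductSystem χ P E L X Y Z l l') (B V : GVar W Γ) (hB : IsIterated Y Z l' B)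
    (hV : IsIterated X B l V) :
    (TateIsHodge c d ψ η χ V ↔
      (∀ i ∈ l, TateIsHodge c d ψ η χ (X i)) ∧ TateIsHodge c d ψ η χ B) ∧
    (HodgeIsTate c d ψ η χ V →
      (∀ i ∈ l, HodgeIsTate c d ψ η χ (X i)) ∧ HodgeIsTate c d ψ η χ B) :=
  main hc hd hη h hB hV

end Pool.Agent.Results.MP_6c781a_ag.SlopeFieldsMumfordTate
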