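import Pool.Agent.U926.SF.MT

/-!
# The Mumford–Tate conjecture for sums of forms in separate variables

Let `F` be a number field and `g_0, …, g_r`
nonsingular forms of degree `d ≥ 2` over the algebraic closure of `F` in separate sets of variables:

* `d = 3`: cubic forms in at most four variables each;
* `d = 4`: quartic forms in at most three variables each;
* any `d`: forms in one variable each (Fermat hypersurfaces).

There is no restriction on the number of the forms, so the dimension of the hypersurface
`X : g_0 + ⋯ + g_r = 0` is arbitrary.

**Theorem.** For all powers of all models `Y` of `X` over number fields, in all codimensions and for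
every prime `p`, the subspace of `H^(2 j)(Y, ℚ_p(j))` generated by the Hodge classes is the subspace
generated by the Tate classes. The same is true for all products of such hypersurfaces (of any degrees)
with varieties which are built from products of abelian varieties of dimension at most three, plane
curves of degree at most four, quartic surfaces, Fermat curves, cyclic cubic threefolds, and for every
variety which is built from such products: quotients, images under generically finite morphisms,
coverings `w ^ m = F(x)` of the projective space (`m` a divisor of `d`), blow-ups of such products in
such products, projective bundles over them.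

For example let `f`, `g` be quartic forms in three variables: the cohomology of the quartic fourfold
`f(x) + g(y) = 0` contains parts of the tensor product of the transcendental parts of the two K3
surfaces `f(x) + z ^ 4 = 0`, `g(y) + w ^ 4 = 0`.

The known theorems which are used:

* the formal properties of the Chow groups (`IsChowProj`), of the `p`-adic cohomology (`IsWeilProj`), of
  the Galois actions on it (`RespectsTateClasses`) and of the Hodge classes for a complex embedding of the
  algebraic closure of `F` (`IsHodgeTheory`);
* `hT`, the theorem of Katsura and Shioda: `f(x) + g(y) = 0` is dominated by the product of
  `f(x) + z ^ d = 0` and `g(y) + w ^ d = 0`, blown up in the product of `f(x) = 0` and `g(y) = 0`;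
* `hE`: the Mumford–Tate conjecture for products of varieties of the known types (abelian varieties
  of dimension at most three: Serre, Ribet, Chi, Tankeev, Moonen–Zarhin; Fermat curves: Pohlmann;
  K3 surfaces: Tankeev, André; the intermediate Jacobians of cyclic cubic threefolds have dimension
  five and multiplication by the cubic roots of unity: Serre, Chi, Moonen–Zarhin; products: Commelin).
-/

universe u v

namespace Pool.Agent.Results.MP_6c781a_ag.SumsOfForms

open Pool.Agent.H914 Pool.Agent.W492.BB Pool.Agent.TH133 Pool.Agent.U926.SF

/-- **The Mumford–Tate conjecture** (Hodge classes and Tate classes) for the hypersurfaces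
`g_0 + ⋯ + g_r = 0` with equations in separate sets of variables, for their products (for example
their powers) with varieties of the known types, and for all varieties which are built from these
products. -/
theorem result {F : Type u} [Field F] [NumberField F] {𝒱 : VarClass (AlgebraicClosure F)}
    {C : TheoryData.{u, v, 0} 𝒱 ℚ} [IsChowProj C] {p : ℕ} [Fact p.Prime]
    {H : WeilTheoryData.{u, v, 0} C ℚ_[p]} [IsWeilProj H] (A : GaloisActions F H)
    (hA : RespectsTateClasses A) (S : HodgeImages H) (hS : S.IsHodgeTheory) (T : Hypersurfaces 𝒱)
    (hT : ∀ d : ℕ, 2 ≤ d → IsKatsuraShioda C T d)
    (hE : ∀ Y : 𝒱.Obj, IsKnownProduct T Y → MumfordTate A S Y)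
    (X : 𝒱.Obj) (hX : IsBuiltFrom C (IsKnownSum C T) X) : MumfordTate A S X :=
  .of_isBuiltFrom hA hS (fun _ hY => .of_isBuiltFrom hA hS hE (hY.isBuiltFrom hT)) hX

end Pool.Agent.Results.MP_6c781a_ag.SumsOfForms
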